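import Pool.Agent.Q122.DetNS.CaseB
import Pool.Agent.Q122.DetNS.CaseC

/-!
# MP_c084f5_al : (1) and (2) are equivalent, and (3) implies (2) in two cases

`Cond1 k a` and `Cond2 k a` are the conditions (1) and (2) of the problem for the semigroup
`H = ⟨a_1, …, a_n⟩` and the field `k`; `IsAP a h α` says `PF(H) = {h + α, …, h + (n-1) α}` and
`α > 0`, so condition (3) is `∃ h α, IsAP a h α`.
-/

namespace Pool.Agent.Results.MP_c084f5_al.Determinantal

open Q122.DetNS

universe u

/-- (A) For every field `k` and all positive integers `a_1, …, a_n`, conditions (1) and (2) are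
equivalent.

(B) Let `n ≥ 3`, let `a_1, …, a_n` be the minimal generators of a numerical semigroup `H` and let
`PF(H) = {h + α, …, h + (n-1) α}`. If `h` has exactly one factorization, or if `x, x + α ∈ H`
always implies `x + 2 α ∈ H`, then condition (2) (and hence (1)) holds, over every field. -/
theorem result :
    (∀ (k : Type u) [Field k] (n : ℕ) (a : Fin n → ℕ), (∀ i, 0 < a i) →
      (Cond1 k a ↔ Cond2 k a)) ∧
    (∀ (k : Type u) [Field k] (n : ℕ) (a : Fin n → ℕ) (h α : ℤ), 3 ≤ n → IsMinGen a →
      IsAP a h α →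
      ((∃! v : Fin n → ℕ, h = ∑ i, (v i : ℤ) * a i) ∨
        (∀ x : ℤ, InH a x → InH a (x + α) → InH a (x + 2 * α))) →
      Cond2 k a) := by
  refine ⟨fun k _ n a ha => cond1_iff_cond2 ha, ?_⟩
  intro k _ n a h α hn ha hAP hcase
  rcases hcase with hu | hZ
  · exact caseB hn ha hAP hu k
  · exact caseC hn ha hAP hZ k

end Pool.Agent.Results.MP_c084f5_al.Determinantal
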